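import Pool.Agent.Helper16.AZ.Stmts

/-!
CTH: Moebius disjointness for one family of elements transformed by a cocycle over a rotation.
-/

open Finset Filter MeasureTheory Topology
open scoped ComplexConjugate InnerProductSpace

namespace Pool.Agent.Helper2.AZ.CTH

open Pool.Agent.Helper16.AZ
open Pool.Agent.Helper16.MD (MS PB Am RW Rich)
open Pool.Agent.Helper40.Mob (IsState TwistedDisjoint)

/-- the operator of a matrix -/
noncomputable abbrev cth_op {d : ℕ} (M : Matrix (Fin d) (Fin d) ℂ) : Op d :=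
  Matrix.toEuclideanCLM (𝕜 := ℂ) M

theorem cth_norm_le_sum {d : ℕ} (x : E d) : ‖x‖ ≤ ∑ i, ‖x i‖ := by
  rw [EuclideanSpace.norm_eq]
  apply Real.sqrt_le_iff.2
  refine ⟨Finset.sum_nonneg fun _ _ => norm_nonneg _, ?_⟩
  exact Finset.sum_sq_le_sq_sum_of_nonneg (fun _ _ => norm_nonneg _)

theorem cth_coord_le {d : ℕ} (x : E d) (i : Fin d) : ‖x i‖ ≤ ‖x‖ := by
  exact PiLp.norm_apply_le x i

theorem cth_op_apply {d : ℕ} (M : Matrix (Fin d) (Fin d) ℂ) (x : E d) (i : Fin d) :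
    (cth_op M x) i = ∑ j, M i j * x j := by
  have h := congrFun (Matrix.ofLp_toEuclideanCLM M x) i
  rw [Matrix.mulVec, dotProduct] at h
  exact h

theorem cth_op_norm {d : ℕ} (M : Matrix (Fin d) (Fin d) ℂ) :
    ‖cth_op M‖ ≤ ∑ i, ∑ j, ‖M i j‖ := by
  refine ContinuousLinearMap.opNorm_le_bound _ (Finset.sum_nonneg fun _ _ =>
    Finset.sum_nonneg fun _ _ => norm_nonneg _) fun x => ?_
  refine (cth_norm_le_sum _).trans ?_
  rw [Finset.sum_mul]
  refine Finset.sum_le_sum fun i _ => ?_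
  rw [cth_op_apply, Finset.sum_mul]
  refine (norm_sum_le _ _).trans (Finset.sum_le_sum fun j _ => ?_)
  rw [norm_mul]
  exact mul_le_mul_of_nonneg_left (cth_coord_le x j) (norm_nonneg _)

theorem cth_op_unitary {d : ℕ} {M : Matrix (Fin d) (Fin d) ℂ}
    (h : M ∈ Matrix.unitaryGroup (Fin d) ℂ) : cth_op M ∈ unitary (Op d) :=
  Unitary.map_mem (Matrix.toEuclideanCLM (𝕜 := ℂ) (n := Fin d)) h

theorem cth_smul_unitary {d : ℕ} {U : Op d} (z : ℂ) (hz : ‖z‖ = 1)
    (h : U ∈ unitary (Op d)) : z • U ∈ unitary (Op d) := by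
  have h1 : star z * z = 1 := by
    rw [Complex.star_def, ← Complex.normSq_eq_conj_mul_self, Complex.normSq_eq_norm_sq, hz]
    simp
  have h2 : z * star z = 1 := by rw [mul_comm]; exact h1
  rw [Unitary.mem_iff] at h ⊢
  constructor
  · rw [star_smul, smul_mul_smul_comm, h1, h.1, one_smul]
  · rw [star_smul, smul_mul_smul_comm, h2, h.2, one_smul]

theorem cth_op_continuous {d : ℕ} : Continuous (cth_op (d := d)) :=
  LinearMap.continuous_of_finiteDimensional
    ((Matrix.toEuclideanCLM (𝕜 := ℂ) (n := Fin d)).toAlgEquiv.toLinearMap)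

/-- the twisted cocycle -/
theorem cth_co_smul {r d : ℕ} (β : T r) (φ : T r → Op d) (z : ℂ) (n : ℕ) (x : T r) :
    co β (fun θ => z • φ θ) n x = z ^ n • co β φ n x := by
  induction n with
  | zero => simp
  | succ n ih =>
    rw [co_succ, co_succ, ih, smul_mul_smul_comm, pow_succ, mul_comm (z ^ n) z]

theorem cth_LM {r d : ℕ} (Φ : T r → Matrix (Fin d) (Fin d) ℂ) (z : ℂ) (hz : ‖z‖ = 1)
    (h : LMM Φ) : LM (fun θ => z • cth_op (Φ θ)) := by
  intro ε hε
  set ε' : ℝ := ε / ((d : ℝ) * d + 1) with hε'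
  have hd : (0 : ℝ) < (d : ℝ) * d + 1 := by positivity
  have hε'0 : 0 < ε' := div_pos hε hd
  have key : ∀ i j : Fin d, ∀ᶠ t in 𝓝[>] (0 : ℝ), ∀ θ θ' : T r, dist θ θ' ≤ t →
      ‖Φ θ i j - Φ θ' i j‖ ≤ ε' / (Real.log t) ^ 2 := by
    intro i j
    obtain ⟨t₀, h0, _, h2⟩ := h i j ε' hε'0
    filter_upwards [Ioc_mem_nhdsGT h0] with t ht using h2 t ht.1 ht.2
  have key2 : ∀ᶠ t in 𝓝[>] (0 : ℝ), ∀ i j : Fin d, ∀ θ θ' : T r, dist θ θ' ≤ t →
      ‖Φ θ i j - Φ θ' i j‖ ≤ ε' / (Real.log t) ^ 2 :=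
    Filter.eventually_all.2 fun i => Filter.eventually_all.2 fun j => key i j
  obtain ⟨u, hu0, hu⟩ := mem_nhdsGT_iff_exists_Ioo_subset.1 key2
  have hu0' : (0 : ℝ) < u := hu0
  refine ⟨min (u / 2) (1 / 2), by positivity, ?_, ?_⟩
  · exact lt_of_le_of_lt (min_le_right _ _) (by norm_num)
  · intro t ht0 ht θ θ' hdist
    have ht1 : t ∈ Set.Ioo 0 u := ⟨ht0, lt_of_le_of_lt (ht.trans (min_le_left _ _)) (by linarith)⟩
    have hk := hu ht1
    simp only [Set.mem_ofPred_eq] at hk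
    have e1 : z • cth_op (Φ θ) - z • cth_op (Φ θ') = z • cth_op (Φ θ - Φ θ') := by
      have e2 : cth_op (Φ θ - Φ θ') = cth_op (Φ θ) - cth_op (Φ θ') :=
        map_sub (Matrix.toEuclideanCLM (𝕜 := ℂ) (n := Fin d)) _ _
      rw [e2]
      exact (smul_sub z (cth_op (Φ θ)) (cth_op (Φ θ'))).symm
    rw [e1, norm_smul, hz, one_mul]
    refine (cth_op_norm _).trans ?_
    have hb : ∑ i : Fin d, ∑ j : Fin d, ‖(Φ θ - Φ θ') i j‖ ≤
        ∑ i : Fin d, ∑ j : Fin d, ε' / (Real.log t) ^ 2 := by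
      refine Finset.sum_le_sum fun i _ => Finset.sum_le_sum fun j _ => ?_
      rw [Matrix.sub_apply]
      exact hk i j θ θ' hdist
    refine hb.trans ?_
    simp only [Finset.sum_const, Finset.card_univ, Fintype.card_fin, nsmul_eq_mul]
    have hq : ((d : ℝ) * ((d : ℝ) * (ε' / (Real.log t) ^ 2))) =
        ((d : ℝ) * d * ε') / (Real.log t) ^ 2 := by ring
    rw [hq]
    have h3 : (d : ℝ) * d * ε' ≤ ε := by
      rw [hε', mul_div_assoc', div_le_iff₀ hd]
      nlinarith [hε, mul_nonneg (Nat.cast_nonneg (α := ℝ) d) (Nat.cast_nonneg (α := ℝ) d)]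
    exact div_le_div_of_nonneg_right h3 (sq_nonneg _)

universe u

theorem cth_res (hTHA : ST_THA) (hRMF : ST_RMF.{u}) (hCIT : ST_CIT.{u}) : ST_CTH.{u} := by
  intro A _ r d β α π Φ v hInd hRot hFam i ρ hρ z hz
  obtain ⟨hU, hL, hv⟩ := hFam
  set φ : T r → Op d := fun θ => cth_op (Φ θ) with hφ
  have hφu : ∀ θ, φ θ ∈ unitary (Op d) := fun θ => cth_op_unitary (hU θ)
  have hφc : Continuous φ := cth_op_continuous.comp Φ.continuous
  set φz : T r → Op d := fun θ => z • φ θ with hφz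
  have hUC : UC φz := ⟨hφc.const_smul z, fun θ => cth_smul_unitary z hz (hφu θ)⟩
  have hLM : LM φz := cth_LM (fun θ => Φ θ) z hz hL
  choose F hF1 hF2 using fun n => hCIT A r d β α π Φ v hRot ⟨hU, hL, hv⟩ n i
  have hF1' : ∀ (n : ℕ) (j : Fin d) (θ : T r), F n j θ = inner ℂ (EuclideanSpace.single i (1 : ℂ))
      (co β φ n θ (EuclideanSpace.single j (1 : ℂ))) := hF1
  have hFn : ∀ (n : ℕ) (j : Fin d) (θ : T r), ‖F n j θ‖ ≤ 1 := by
    intro n j θ
    rw [hF1']
    refine (norm_inner_le_norm _ _).trans ?_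
    rw [unitary_norm (co_unitary β φ hφu n θ)]
    simp
  let G : ℕ → Fin d → C(T r, ℂ) := fun N j =>
    ((N : ℂ))⁻¹ • ∑ n ∈ Icc 1 N, (((ArithmeticFunction.moebius n : ℤ) : ℂ) * z ^ n) • F n j
  have hG : ∀ N j θ, G N j θ = ((N : ℂ))⁻¹ *
      ∑ n ∈ Icc 1 N, (((ArithmeticFunction.moebius n : ℤ) : ℂ) * z ^ n) * F n j θ := by
    intro N j θ
    simp only [G, ContinuousMap.coe_smul, Pi.smul_apply, smul_eq_mul]
    congr 1
    rw [ContinuousMap.sum_apply]
    rfl
  have hGb : ∀ N j θ, ‖G N j θ‖ ≤ 1 := by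
    intro N j θ
    rw [hG, norm_mul, norm_inv, Complex.norm_natCast]
    have hs : ‖∑ n ∈ Icc 1 N, (((ArithmeticFunction.moebius n : ℤ) : ℂ) * z ^ n) * F n j θ‖ ≤
        (N : ℝ) := by
      refine (norm_sum_le _ _).trans ?_
      have : ∀ n ∈ Icc 1 N,
          ‖(((ArithmeticFunction.moebius n : ℤ) : ℂ) * z ^ n) * F n j θ‖ ≤ 1 := by
        intro n _
        rw [norm_mul, norm_mul, norm_pow, hz, one_pow, mul_one]
        have hm : ‖((ArithmeticFunction.moebius n : ℤ) : ℂ)‖ ≤ 1 := by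
          rw [Complex.norm_intCast]
          exact_mod_cast ArithmeticFunction.abs_moebius_le_one
        have := hFn n j θ
        nlinarith [norm_nonneg ((ArithmeticFunction.moebius n : ℤ) : ℂ), norm_nonneg (F n j θ)]
      refine (Finset.sum_le_sum this).trans ?_
      simp
    rcases Nat.eq_zero_or_pos N with h0 | h0
    · subst h0; simp
    · have hN : (0 : ℝ) < N := by exact_mod_cast h0
      rw [inv_mul_le_iff₀ hN, mul_one]
      exact hs
  have hG0 : ∀ j θ, Tendsto (fun N => G N j θ) atTop (𝓝 0) := by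
    intro j θ
    have h := hTHA r d β φz (fun _ => EuclideanSpace.single i (1 : ℂ))
      (EuclideanSpace.single j (1 : ℂ)) θ hInd hUC hLM continuous_const
    refine h.congr fun N => ?_
    rw [hG, MS, div_eq_inv_mul]
    congr 1
    refine Finset.sum_congr rfl fun n _ => ?_
    rw [hF1', ff, hφz, cth_co_smul, smul_apply, inner_smul_right]
    ring
  have hfin : ∀ j, Tendsto (fun N => ρ (π (G N j) * v j)) atTop (𝓝 0) := fun j =>
    hRMF A r π ρ (v j) (fun N => G N j) 1 hρ (fun N θ => hGb N j θ) (fun θ => hG0 j θ)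
  have hsum : Tendsto (fun N => ∑ j, ρ (π (G N j) * v j)) atTop (𝓝 0) := by
    have := tendsto_finsetSum (Finset.univ : Finset (Fin d)) fun j _ => hfin j
    simpa using this
  refine hsum.congr fun N => ?_
  have e1 : ∀ j, ρ (π (G N j) * v j) = ((N : ℂ))⁻¹ *
      ∑ n ∈ Icc 1 N, (((ArithmeticFunction.moebius n : ℤ) : ℂ) * z ^ n) * ρ (π (F n j) * v j) := by
    intro j
    simp only [G, map_smul, map_sum, smul_mul_assoc, Finset.sum_mul, smul_eq_mul]
  rw [Finset.sum_congr rfl fun j _ => e1 j, ← Finset.mul_sum, Finset.sum_comm, div_eq_inv_mul]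
  congr 1
  refine Finset.sum_congr rfl fun n _ => ?_
  rw [hF2 n, map_sum, Finset.mul_sum]

end Pool.Agent.Helper2.AZ.CTH
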